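import Pool.Agent.H875.Demand2
set_option autoImplicit false

/-!
Guenin's statement (Q1), for every `k`, for all consistent signed graphs of unbalanced girth `k` without
(K5, E(K5)) signed minor which have an equivalent signature whose negative edges contain neither three pairwise
disjoint edges nor a triangle and an edge disjoint from it.
-/

namespace Pool.Agent.Results.MP_32cceb_co.DemandGraph
open Pool.Agent.H875

theorem result {V E : Type} [Finite V] (G : SG V E) (hl : G.Loopless) (k : ℕ) (hc : G.Consistent)
    (hk : G.UnbalancedGirth k) (h5 : ¬ HasOddK5 G.adj) (X : Set V)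
    (hM : ¬ ∃ a b c d e f : V, [a, b, c, d, e, f].Nodup ∧ G.negAdj X a b ∧ G.negAdj X c d ∧ G.negAdj X e f)
    (hT : ¬ ∃ a b c d e : V, [a, b, c, d, e].Nodup ∧ G.negAdj X a b ∧ G.negAdj X b c ∧ G.negAdj X a c ∧
      G.negAdj X d e) : G.Hom (SPC (k - 1)) := by
  classical
  have := Fintype.ofFinite V
  have : Nonempty V := by
    obtain ⟨⟨v, e, h, -⟩, -⟩ := hk
    exact ⟨v 0⟩
  exact hom_of_good hl hc hk (good_demand hl h5 X hM hT)

end Pool.Agent.Results.MP_32cceb_co.DemandGraph
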