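import Pool.Agent.H875.Glue
set_option autoImplicit false

/-!
Guenin's statement (Q1), for every `k`, for all consistent signed graphs of unbalanced girth `k` in the class
`Glued`: it contains the signed graphs with a vertex whose deletion leaves no (K4, E(K4)) signed minor and the signed
graphs on five vertices without (K5, E(K5)) signed minor; it is closed under sums of order at most three, and finally
under gluing along rigid sets, such as the vertex sets of unbalanced cycles of length `k`.
-/

namespace Pool.Agent.Results.MP_32cceb_co.GluedClass
open Pool.Agent.H875

theorem result {V E : Type} [Finite V] (G : SG V E) (hl : G.Loopless) (k : ℕ) (hc : G.Consistent)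
    (hk : G.UnbalancedGirth k) (hG : Glued G.adj k Set.univ) : G.Hom (SPC (k - 1)) := by
  classical
  have := Fintype.ofFinite V
  exact hom_of_glued hl hc hk hG

end Pool.Agent.Results.MP_32cceb_co.GluedClass
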